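import Pool.Agent.TH894.LG9
import Pool.Agent.W93.PG6

set_option autoImplicit false

/-! Goldbach representations in all long windows, for all even integers near almost all numbers which arise by
few changes of digits. -/

namespace Pool.Agent.K3h81.PF
open Finset
open Pool.Agent.H373R2.T7
open Pool.Agent.W93.DG
open Pool.Agent.W93.AU (dI)
open Pool.Agent.W93.GB (vM_le)
open Pool.Agent.W93.PG (WinP GoodG pg_det win_count)
open Pool.Agent.TH894.SM (change change_lt Win un)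
open Pool.Agent.TH894.LG (Ch two_P pow_le_two_pow)

lemma shift_sum (X N'' Q : ℕ) (hN : N'' ≤ X) (c y : ℤ) (hc : |c| ≤ Q) (Lm : ℕ → ℝ) (D : ℤ → ℝ) (Bd : ℝ)
    (hBd : ∀ j : ℕ, 1 ≤ j → j ≤ X → |Lm j * D (y + c - j)| ≤ Bd) (hBd0 : 0 ≤ Bd) : ∃ N' ≤ X,
    |∑ j ∈ Icc 1 N'', Lm j * D (y + c - j)| ≤
      |∑ n ∈ Icc 1 N', (if 1 ≤ (n : ℤ) + c ∧ (n : ℤ) + c ≤ X then Lm ((n : ℤ) + c).toNat else 0) * D (y - n)| + Q * Bd := by
  classical
  obtain ⟨hc1, hc2⟩ := abs_le.1 hc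
  refine ⟨min X ((N'' : ℤ) - c).toNat, min_le_left _ _, ?_⟩
  obtain ⟨N', hN'⟩ : ∃ N', N' = min X ((N'' : ℤ) - c).toNat := ⟨_, rfl⟩
  rw [← hN']
  have e1 : ∑ j ∈ Icc 1 N'', Lm j * D (y + c - j) =
      ∑ j ∈ (Icc 1 N'').filter (fun j : ℕ => 1 ≤ (j : ℤ) - c ∧ (j : ℤ) - c ≤ X), Lm j * D (y + c - j) +
      ∑ j ∈ (Icc 1 N'').filter (fun j : ℕ => ¬ (1 ≤ (j : ℤ) - c ∧ (j : ℤ) - c ≤ X)), Lm j * D (y + c - j) :=
    (sum_filter_add_sum_filter_not _ _ _).symm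
  have e2 : ∑ n ∈ Icc 1 N', (if 1 ≤ (n : ℤ) + c ∧ (n : ℤ) + c ≤ X then Lm ((n : ℤ) + c).toNat else 0) * D (y - n) =
      ∑ n ∈ (Icc 1 N').filter (fun n : ℕ => 1 ≤ (n : ℤ) + c ∧ (n : ℤ) + c ≤ X), Lm ((n : ℤ) + c).toNat * D (y - n) := by
    rw [sum_filter]
    apply sum_congr rfl
    intro n _
    split_ifs
    · rfl
    · rw [zero_mul]
  have e3 : ∑ j ∈ (Icc 1 N'').filter (fun j : ℕ => 1 ≤ (j : ℤ) - c ∧ (j : ℤ) - c ≤ X), Lm j * D (y + c - j) =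
      ∑ n ∈ (Icc 1 N').filter (fun n : ℕ => 1 ≤ (n : ℤ) + c ∧ (n : ℤ) + c ≤ X), Lm ((n : ℤ) + c).toNat * D (y - n) := by
    apply sum_nbij' (fun j : ℕ => ((j : ℤ) - c).toNat) (fun n : ℕ => ((n : ℤ) + c).toNat)
    · intro j hj
      rw [mem_filter, mem_Icc] at hj ⊢
      omega
    · intro n hn
      rw [mem_filter, mem_Icc] at hn ⊢
      omega
    · intro j hj
      rw [mem_filter, mem_Icc] at hj
      omega
    · intro n hn
      rw [mem_filter, mem_Icc] at hn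
      omega
    · intro j hj
      rw [mem_filter, mem_Icc] at hj
      have h1 : ((((j : ℤ) - c).toNat : ℕ) : ℤ) = (j : ℤ) - c := Int.toNat_of_nonneg (by omega)
      have h2 : ((((j : ℤ) - c).toNat : ℕ) : ℤ) + c = (j : ℤ) := by omega
      rw [h2, Int.toNat_natCast]
      congr 2
      omega
  rw [e1, e2, e3]
  refine (abs_add_le _ _).trans (add_le_add le_rfl ?_)
  refine (abs_sum_le_sum_abs _ _).trans ?_
  have h1 : ∀ j ∈ (Icc 1 N'').filter (fun j : ℕ => ¬ (1 ≤ (j : ℤ) - c ∧ (j : ℤ) - c ≤ X)), |Lm j * D (y + c - j)| ≤ Bd := by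
    intro j hj
    rw [mem_filter, mem_Icc] at hj
    exact hBd j hj.1.1 (hj.1.2.trans hN)
  refine (sum_le_sum h1).trans ?_
  rw [sum_const, nsmul_eq_mul]
  apply mul_le_mul_of_nonneg_right _ hBd0
  have h2 : ((Icc 1 N'').filter (fun j : ℕ => ¬ (1 ≤ (j : ℤ) - c ∧ (j : ℤ) - c ≤ X))).card ≤ Q := by
    rcases le_or_gt 0 c with h0 | h0
    · have hs : (Icc 1 N'').filter (fun j : ℕ => ¬ (1 ≤ (j : ℤ) - c ∧ (j : ℤ) - c ≤ X)) ⊆ Icc 1 Q := by
        intro j hj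
        rw [mem_filter, mem_Icc] at hj
        rw [mem_Icc]
        omega
      refine (card_le_card hs).trans ?_
      rw [Nat.card_Icc]
      omega
    · have hs : (Icc 1 N'').filter (fun j : ℕ => ¬ (1 ≤ (j : ℤ) - c ∧ (j : ℤ) - c ≤ X)) ⊆ Ioc (X - Q) X := by
        intro j hj
        rw [mem_filter, mem_Icc] at hj
        rw [mem_Ioc]
        omega
      refine (card_le_card hs).trans ?_
      rw [Nat.card_Ioc]
      omega
  exact_mod_cast h2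

/-- few choices are exceptional: Goldbach representations in all long windows -/
theorem few_near (b : ℕ) (hb : 2 ≤ b) : ∃ R : ℕ, 1 ≤ R ∧ ∀ (A' D W U : ℕ) (ε : ℝ), 0 < ε → ∃ C₁ : ℕ, 1 ≤ C₁ ∧
    ∀ A₀ : ℕ, ∃ A k₀ : ℕ, A₀ ≤ A ∧ ∀ K : ℕ, k₀ ≤ K → ∀ N : ℕ, N < b ^ K →
    ∀ f : ℕ → ℕ, (∀ j, f j < b ∧ f j ≠ N / b ^ j % b) →
    ∀ r : Fin 3 → ℕ, (∀ q, C₁ * (Nat.log b (K + 1) + 1) ≤ r q) → (∀ q, 8 * R * r q ≤ (Win (hh b A (K + 1)) (K + 1) q).card) →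
    ∀ S ⊆ Ch b A K r,
    (∀ T ∈ S, ∃ m : ℕ, 2 ∣ m ∧ m ≤ b ^ K ∧ b ^ K ≤ K ^ D * m ∧ |(m : ℤ) - ((change b K N f (un T) : ℕ) : ℤ)| ≤ (K : ℤ) ^ W ∧
      ¬ WinP ε A' m) →
    (S.card : ℝ) ≤ 1 / (K : ℝ) ^ U * (Ch b A K r).card := by
  classical
  obtain ⟨R, hR, H⟩ := two_P b hb
  refine ⟨R, hR, fun A' D W U ε hε => ?_⟩
  obtain ⟨V, hV⟩ : ∃ V, V = A' + (D + 1) + 4 := ⟨_, rfl⟩
  obtain ⟨U', hU'⟩ : ∃ U', U' = U + W + V + 8 := ⟨_, rfl⟩
  obtain ⟨C₁, hC₁, H1⟩ := H 2 U'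
  refine ⟨C₁, hC₁, fun A₀ => ?_⟩
  obtain ⟨A, B, hA, H2⟩ := H1 A₀
  obtain ⟨E1, hE1⟩ : ∃ E1, E1 = B + V + 6 := ⟨_, rfl⟩
  obtain ⟨k0, H3⟩ := H2 (E1 + 1)
  obtain ⟨X0, hdet⟩ := pg_det V E1 (by omega)
  obtain ⟨X1, hwin⟩ := win_count ε hε A' (D + 1)
  obtain ⟨k2, h2⟩ := Vz_inv_small (E1 + 1)
  obtain ⟨k4, h4⟩ := pow_le_two_pow (W + V + 8)
  obtain ⟨k5, h5⟩ := exists_nat_ge ((1 / Real.log b) ^ (D + 1))
  obtain ⟨k6, h6⟩ := ev_L' 2
  refine ⟨A, k0 + X0 + X1 + k2 + k4 + k5 + k6 + b ^ (V + 2) + 4 * b + 4, hA, fun K hK N hN f hf r hr hr' S hS hSb => ?_⟩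
  have hb1 : 1 < b := by omega
  have hbr : (2 : ℝ) ≤ b := by exact_mod_cast hb
  have hKX : K < b ^ K := Nat.lt_pow_self hb1
  have hK0 : (0 : ℝ) < K := by exact_mod_cast (by omega : 0 < K)
  have hK1 : (1 : ℝ) ≤ K := by exact_mod_cast (by omega : 1 ≤ K)
  have hK4 : (4 : ℝ) ≤ K := by exact_mod_cast (by omega : 4 ≤ K)
  have hKb : (4 * b : ℝ) ≤ K := by exact_mod_cast (by omega : 4 * b ≤ K)
  obtain ⟨L, hL⟩ : ∃ L, L = Real.log ((b ^ K : ℕ) : ℝ) := ⟨_, rfl⟩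
  have hlb : 0 < Real.log b := Real.log_pos (by linarith)
  have hlb2 : Real.log b ≤ b := (Real.log_le_sub_one_of_pos (by linarith)).trans (by linarith)
  have hLK : L = (K : ℝ) * Real.log b := by rw [hL]; push_cast; rw [Real.log_pow]
  have hLbK : L ≤ b * K := by rw [hLK]; nlinarith
  have hL2 : 2 ≤ L := by rw [hL]; exact h6 (b ^ K) (by omega)
  have hL0 : 0 < L := by linarith
  have hX0 : (0 : ℝ) < (b : ℝ) ^ K := by positivity
  have hXc : ((b ^ K : ℕ) : ℝ) = (b : ℝ) ^ K := by push_cast; rfl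
  -- the level
  obtain ⟨z, hz⟩ : ∃ z : ℕ, z = ⌈L ^ E1⌉₊ := ⟨_, rfl⟩
  have hLE : 1 ≤ L ^ E1 := one_le_pow₀ (by linarith)
  have hz1 : L ^ E1 ≤ z := by rw [hz]; exact Nat.le_ceil _
  have hz2 : (z : ℝ) ≤ L ^ (E1 + 1) := by
    have := Nat.ceil_lt_add_one (by positivity : 0 ≤ L ^ E1)
    rw [← hz] at this
    rw [pow_succ]
    nlinarith
  have hz3 : L ^ B ≤ z := (pow_le_pow_right₀ (by linarith) (by omega)).trans hz1
  have hzn : 1 ≤ z := by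
    have : (1 : ℝ) ≤ z := hLE.trans hz1
    exact_mod_cast this
  have hVz := h2 (b ^ K) (by omega) z hzn (by rw [← hL]; exact hz2)
  rw [← hL] at hVz
  -- bounds of the terms
  have hX1n : 1 ≤ b ^ K := Nat.one_le_pow _ _ (by omega)
  have hdI : ∀ k : ℤ, k ≤ (b : ℤ) ^ K → |dI z k| ≤ (K : ℝ) ^ 2 := by
    intro k hk
    unfold dI
    refine (abs_sub _ _).trans ?_
    rw [abs_of_nonneg (lamI_nonneg _), abs_of_nonneg (lamzI_nonneg _ _)]
    have e1 : lamI k ≤ L := by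
      rw [hL]
      apply lamI_le _ _ (by exact_mod_cast hX1n)
      exact_mod_cast hk
    have e2 : lamzI z k ≤ L := (lamzI_le z _).trans hVz
    nlinarith
  have hG : ∀ n : ℕ, n ≤ b ^ K → |ArithmeticFunction.vonMangoldt n| ≤ (K : ℝ) ^ 2 := by
    intro n hn
    rw [abs_of_nonneg ArithmeticFunction.vonMangoldt_nonneg]
    have e1 := vM_le n (b ^ K) hX1n hn
    rw [← hL] at e1
    nlinarith
  -- the exceptional choices for a given distance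
  obtain ⟨G, hGd⟩ : ∃ G : ℤ → ℕ → ℝ, G = fun (c : ℤ) (n : ℕ) => if 1 ≤ (n : ℤ) + c ∧ (n : ℤ) + c ≤ ((b ^ K : ℕ) : ℤ) then
      ArithmeticFunction.vonMangoldt ((n : ℤ) + c).toNat else 0 := ⟨_, rfl⟩
  have hGb : ∀ c n, |G c n| ≤ (K : ℝ) ^ 2 := by
    intro c n
    rw [hGd]
    simp only
    split_ifs with h
    · exact hG _ (by omega)
    · rw [abs_zero]
      positivity
  obtain ⟨Sc, hSc⟩ : ∃ Sc : ℤ → Finset (Fin 3 → Finset ℕ), Sc = fun c => S.filter (fun T =>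
      ∃ N' ≤ b ^ K, (b : ℝ) ^ K / (K : ℝ) ^ U' < |∑ n ∈ Icc 1 N', G c n * dI z (((change b K N f (un T) : ℕ) : ℤ) - (n : ℤ))|) :=
    ⟨_, rfl⟩
  have hScc : ∀ c, ((Sc c).card : ℝ) ≤ 1 / (K : ℝ) ^ U' * (Ch b A K r).card := by
    intro c
    apply H3 K (by omega) z (by rw [← hL]; exact hz3) (by rw [← hL]; exact hz2) N hN f hf r hr hr' (G c) (hGb c) (Sc c)
    · rw [hSc]; exact (filter_subset _ _).trans hS
    · intro T hT
      rw [hSc, mem_filter] at hT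
      exact Or.inr hT.2
  have hcover : S ⊆ (Icc (-((K : ℤ) ^ W)) ((K : ℤ) ^ W)).biUnion Sc := by
    intro T hT
    obtain ⟨m, hm2, hmX, hmD, hmy, hmw⟩ := hSb T hT
    rw [mem_biUnion]
    obtain ⟨y, hy⟩ : ∃ y : ℤ, y = ((change b K N f (un T) : ℕ) : ℤ) := ⟨_, rfl⟩
    rw [← hy] at hmy
    refine ⟨(m : ℤ) - y, mem_Icc.2 (abs_le.1 hmy), ?_⟩
    rw [hSc, mem_filter]
    refine ⟨hT, ?_⟩
    rw [← hy]
    by_contra hcon
    push Not at hcon
    apply hmw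
    have hm0 : m ≠ 0 := by
      intro h
      rw [h, Nat.mul_zero] at hmD
      omega
    -- the sums for `m`
    have hsum : ∀ N'' ≤ b ^ K, |∑ n ∈ Icc 1 N'', ArithmeticFunction.vonMangoldt n * (lamI ((m : ℤ) - n) - lamzI z ((m : ℤ) - n))| ≤
        ((b ^ K : ℕ) : ℝ) / L ^ (V + 2) := by
      intro N'' hN''
      obtain ⟨N', hN', hle⟩ := shift_sum (b ^ K) N'' (K ^ W) hN'' ((m : ℤ) - y) y (by exact_mod_cast hmy)
        (fun n => ArithmeticFunction.vonMangoldt n) (dI z) ((K : ℝ) ^ 2 * (K : ℝ) ^ 2) (by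
          intro j _ hj2
          rw [abs_mul]
          refine mul_le_mul (hG j hj2) (hdI _ ?_) (abs_nonneg _) (by positivity)
          have : (m : ℤ) ≤ (b : ℤ) ^ K := by exact_mod_cast hmX
          omega) (by positivity)
      have h7 := hcon N' hN'
      have e1 : y + ((m : ℤ) - y) = (m : ℤ) := by ring
      rw [e1] at hle
      have e2 : ∑ n ∈ Icc 1 N'', ArithmeticFunction.vonMangoldt n * (lamI ((m : ℤ) - n) - lamzI z ((m : ℤ) - n)) =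
          ∑ j ∈ Icc 1 N'', ArithmeticFunction.vonMangoldt j * dI z ((m : ℤ) - j) := rfl
      rw [e2]
      refine hle.trans ?_
      have h8 : |∑ n ∈ Icc 1 N', (if 1 ≤ (n : ℤ) + ((m : ℤ) - y) ∧ (n : ℤ) + ((m : ℤ) - y) ≤ (b ^ K : ℕ) then
          ArithmeticFunction.vonMangoldt ((n : ℤ) + ((m : ℤ) - y)).toNat else 0) * dI z (y - n)| ≤ (b : ℝ) ^ K / (K : ℝ) ^ U' := by
        rw [hGd] at h7
        exact h7
      refine (add_le_add h8 le_rfl).trans ?_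
      -- the comparison of the sizes
      have g1 : L ^ (V + 2) ≤ (K : ℝ) ^ (V + 3) := by
        calc L ^ (V + 2) ≤ (b * K : ℝ) ^ (V + 2) := pow_le_pow_left₀ hL0.le hLbK _
          _ = (b : ℝ) ^ (V + 2) * (K : ℝ) ^ (V + 2) := mul_pow _ _ _
          _ ≤ K * (K : ℝ) ^ (V + 2) := by
              apply mul_le_mul_of_nonneg_right _ (by positivity)
              exact_mod_cast (by omega : b ^ (V + 2) ≤ K)
          _ = (K : ℝ) ^ (V + 3) := by ring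
      have g2 : (b : ℝ) ^ K / (K : ℝ) ^ (V + 3) ≤ ((b ^ K : ℕ) : ℝ) / L ^ (V + 2) := by
        rw [hXc]
        exact div_le_div_of_nonneg_left hX0.le (by positivity) g1
      refine le_trans ?_ g2
      have g3 : (b : ℝ) ^ K / (K : ℝ) ^ U' ≤ 1 / 2 * ((b : ℝ) ^ K / (K : ℝ) ^ (V + 3)) := by
        have : 2 * (K : ℝ) ^ (V + 3) ≤ (K : ℝ) ^ U' := by
          calc 2 * (K : ℝ) ^ (V + 3) ≤ K * (K : ℝ) ^ (V + 3) := mul_le_mul_of_nonneg_right (by linarith) (by positivity)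
            _ = (K : ℝ) ^ (V + 4) := by ring
            _ ≤ _ := pow_le_pow_right₀ hK1 (by omega)
        rw [div_le_iff₀ (by positivity)]
        have e3 : 1 / 2 * ((b : ℝ) ^ K / (K : ℝ) ^ (V + 3)) * (K : ℝ) ^ U' = (b : ℝ) ^ K * ((K : ℝ) ^ U' / (2 * (K : ℝ) ^ (V + 3))) := by
          field_simp
        rw [e3]
        have e4 : 1 ≤ (K : ℝ) ^ U' / (2 * (K : ℝ) ^ (V + 3)) := by
          rw [le_div_iff₀ (by positivity)]
          linarith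
        nlinarith
      have g4 : ((K ^ W : ℕ) : ℝ) * ((K : ℝ) ^ 2 * (K : ℝ) ^ 2) ≤ 1 / 2 * ((b : ℝ) ^ K / (K : ℝ) ^ (V + 3)) := by
        have g5 : (K : ℝ) ^ (W + V + 8) ≤ (b : ℝ) ^ K := by
          have := (h4 K (by omega)).trans (Nat.pow_le_pow_left hb K)
          exact_mod_cast this
        rw [← mul_div_assoc, le_div_iff₀ (by positivity)]
        push_cast
        have e3 : (K : ℝ) ^ W * ((K : ℝ) ^ 2 * (K : ℝ) ^ 2) * (K : ℝ) ^ (V + 3) * K = (K : ℝ) ^ (W + V + 8) := by ring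
        have e4 : 0 ≤ (K : ℝ) ^ W * ((K : ℝ) ^ 2 * (K : ℝ) ^ 2) * (K : ℝ) ^ (V + 3) := by positivity
        nlinarith
      linarith
    -- the windows
    apply hwin (b ^ K) (by omega) m hmX
    · rw [← hL, hXc, div_le_iff₀ (by positivity)]
      have g1 : (K : ℝ) ^ D ≤ L ^ (D + 1) := by
        rw [hLK, mul_pow]
        have g2 : (1 / Real.log b) ^ (D + 1) ≤ K := h5.trans (by exact_mod_cast (by omega : k5 ≤ K))
        have g3 : 1 ≤ K * Real.log b ^ (D + 1) := by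
          rw [div_pow, one_pow, div_le_iff₀ (by positivity)] at g2
          exact g2
        calc (K : ℝ) ^ D = (K : ℝ) ^ D * 1 := (mul_one _).symm
          _ ≤ (K : ℝ) ^ D * (K * Real.log b ^ (D + 1)) := mul_le_mul_of_nonneg_left g3 (by positivity)
          _ = _ := by ring
      have g4 : (b : ℝ) ^ K ≤ (K : ℝ) ^ D * m := by exact_mod_cast hmD
      have hmr : (0 : ℝ) ≤ m := Nat.cast_nonneg _
      calc (b : ℝ) ^ K ≤ (K : ℝ) ^ D * m := g4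
        _ ≤ L ^ (D + 1) * m := mul_le_mul_of_nonneg_right g1 hmr
        _ = _ := mul_comm _ _
    · rw [← hV]
      obtain ⟨T', hT'⟩ : ∃ T' : ℕ, T' = ⌈L ^ (V + 3)⌉₊ := ⟨_, rfl⟩
      apply hdet (b ^ K) (by omega) m hmX hm2 hm0 z (by rw [← hL]; exact hz1) (by rw [← hL]; exact hz2) T'
        (by rw [← hL, hT']; exact Nat.le_ceil _)
      intro i _
      rw [← hL]
      exact hsum _ (min_le_right _ _)
  have hc0 : (0 : ℝ) ≤ (Ch b A K r).card := Nat.cast_nonneg _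
  have hKW : (1 : ℝ) ≤ (K : ℝ) ^ W := one_le_pow₀ hK1
  calc (S.card : ℝ) ≤ (((Icc (-((K : ℤ) ^ W)) ((K : ℤ) ^ W)).biUnion Sc).card : ℝ) := by
        exact_mod_cast card_le_card hcover
    _ ≤ ∑ c ∈ Icc (-((K : ℤ) ^ W)) ((K : ℤ) ^ W), ((Sc c).card : ℝ) := by
        exact_mod_cast card_biUnion_le
    _ ≤ ∑ _c ∈ Icc (-((K : ℤ) ^ W)) ((K : ℤ) ^ W), (1 / (K : ℝ) ^ U' * (Ch b A K r).card) :=
        sum_le_sum fun c _ => hScc c
    _ = (2 * (K : ℝ) ^ W + 1) * (1 / (K : ℝ) ^ U' * (Ch b A K r).card) := by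
        rw [sum_const, nsmul_eq_mul, Int.card_Icc]
        congr 1
        have : (((K : ℤ) ^ W + 1 - -((K : ℤ) ^ W)).toNat : ℤ) = 2 * (K : ℤ) ^ W + 1 := by
          have h0 : (0 : ℤ) ≤ (K : ℤ) ^ W := by positivity
          rw [Int.toNat_of_nonneg (by linarith)]
          ring
        exact_mod_cast this
    _ ≤ (K : ℝ) ^ (W + 1) * (1 / (K : ℝ) ^ U' * (Ch b A K r).card) := by
        apply mul_le_mul_of_nonneg_right _ (by positivity)
        rw [pow_succ]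
        nlinarith
    _ ≤ 1 / (K : ℝ) ^ U * (Ch b A K r).card := by
        rw [← mul_assoc]
        apply mul_le_mul_of_nonneg_right _ hc0
        rw [mul_one_div, div_le_div_iff₀ (by positivity) (by positivity), one_mul, ← pow_add]
        exact pow_le_pow_right₀ hK1 (by omega)

end Pool.Agent.K3h81.PF
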